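import Mathlib

open MeasureTheory Filter Topology

namespace Pool.Agent.Results.MP_31ab2b_pr.NoPointwiseRatio

noncomputable section

/-- the unit arrow `± e_i` encoded by `(i, sign)` -/
def arrow {d : ℕ} (a : Fin d × Bool) : Fin d → ℤ :=
  if a.2 then Pi.single a.1 1 else -Pi.single a.1 1

/-- environments: an arrow at every site -/
abbrev Env (d : ℕ) : Type := (Fin d → ℤ) → Fin d × Bool

/-- the uniform law on the `2 d` unit arrows -/
def unif (d : ℕ) [NeZero d] : Measure (Fin d × Bool) :=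
  (PMF.uniformOfFintype (Fin d × Bool)).toMeasure

/-- the law `μ`: i.i.d. uniform arrows -/
def envLaw (d : ℕ) [NeZero d] : Measure (Env d) := Measure.infinitePi fun _ => unif d

/-- `ℓ¹`-norm of a lattice point -/
def norm1 {d : ℕ} (x : Fin d → ℤ) : ℤ := ∑ i, |x i|

open Classical in
/-- transition probabilities `p(x, z, ω)` -/
def step {d : ℕ} (ε : ℝ) (ω : Env d) (x z : Fin d → ℤ) : ℝ :=
  if x - z = arrow (ω x) then 1 - (2 * d - 1) * ε else if norm1 (x - z) = 1 then ε else 0

/-- `p_ω(n, x) = P_ω^0(X_n = x)` -/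
def kern {d : ℕ} (ε : ℝ) (ω : Env d) : ℕ → (Fin d → ℤ) → ℝ
  | 0, x => if x = 0 then 1 else 0
  | n + 1, x => ∑' z, kern ε ω n z * step ε ω z x

/-- the averaged kernel `m_1(n, x)` -/
def mean (d : ℕ) [NeZero d] (ε : ℝ) (n : ℕ) (x : Fin d → ℤ) : ℝ :=
  ∫ ω, kern ε ω n x ∂(envLaw d)

/-- (i): under the averaged law, `X_n / √n` converges in law to a centred Gaussian vector with
covariance `s I_d` -/
def AveragedCLT (d : ℕ) [NeZero d] (ε : ℝ) (s : NNReal) : Prop :=
  ∀ f : BoundedContinuousFunction (Fin d → ℝ) ℝ,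
    Tendsto (fun n : ℕ => ∑' x : Fin d → ℤ, mean d ε n x * f (fun i => (x i : ℝ) / √(n : ℝ)))
      atTop (𝓝 (∫ y, f y ∂(Measure.pi fun _ : Fin d => ProbabilityTheory.gaussianReal 0 s)))

/-- (ii): for all `C, δ > 0`,
`sup {μ(|p_ω(n,x)/m_1(n,x) - 1| > δ) : |x| ≤ C √n, m_1(n,x) > 0} → 0` (here `|x|` is the euclidean
norm) -/
def RatioToOne (d : ℕ) [NeZero d] (ε : ℝ) : Prop :=
  ∀ C > 0, ∀ δ > 0, ∀ η : ENNReal, 0 < η → ∃ N : ℕ, ∀ n ≥ N, ∀ x : Fin d → ℤ,
    √(∑ i, (x i : ℝ) ^ 2) ≤ C * √(n : ℝ) → 0 < mean d ε n x →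
      envLaw d {ω | δ < |kern ε ω n x / mean d ε n x - 1|} ≤ η

/-- the model homogenizes -/
def Homogenizes (d : ℕ) [NeZero d] (ε : ℝ) : Prop :=
  (∃ s : NNReal, 0 < s ∧ AveragedCLT d ε s) ∧ RatioToOne d ε

section aux

variable {d : ℕ}

theorem norm1_arrow (a : Fin d × Bool) : norm1 (arrow a) = 1 := by
  unfold norm1 arrow
  rw [Finset.sum_eq_single a.1]
  · split_ifs <;> simp
  · intro b _ hb
    split_ifs <;> simp [Pi.single_apply, hb]
  · simp

theorem arrow_inj {a b : Fin d × Bool} (h : arrow a = arrow b) : a = b := by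
  obtain ⟨i, s⟩ := a
  obtain ⟨j, t⟩ := b
  unfold arrow at h
  have h1 := congrFun h i
  have h2 := congrFun h j
  by_cases hij : i = j
  · subst hij
    cases s <;> cases t <;> simp at h1 ⊢
  · exfalso
    cases s <;> cases t <;> simp [Pi.single_apply, hij, Ne.symm hij] at h1

theorem exists_arrow {x : Fin d → ℤ} (h : norm1 x = 1) : ∃ a, arrow a = x := by
  unfold norm1 at h
  have h0 : ∃ i, x i ≠ 0 := by
    by_contra hc
    push Not at hc
    simp [hc] at h
  obtain ⟨i, hi⟩ := h0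
  have hsplit := Finset.add_sum_erase Finset.univ (fun i => |x i|) (Finset.mem_univ i)
  have hnn : 0 ≤ ∑ j ∈ Finset.univ.erase i, |x j| := Finset.sum_nonneg fun j _ => abs_nonneg _
  have hge : 1 ≤ |x i| := Int.one_le_abs hi
  have hz : ∑ j ∈ Finset.univ.erase i, |x j| = 0 := by omega
  have hxi : |x i| = 1 := by omega
  have hz' : ∀ j, j ≠ i → x j = 0 := by
    intro j hj
    have := (Finset.sum_eq_zero_iff_of_nonneg (fun j _ => abs_nonneg _)).1 hz j
      (Finset.mem_erase.2 ⟨hj, Finset.mem_univ _⟩)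
    exact abs_eq_zero.1 this
  rcases (abs_eq (by norm_num : (0 : ℤ) ≤ 1)).1 hxi with h1 | h1
  · refine ⟨(i, true), ?_⟩
    funext j
    by_cases hj : j = i
    · subst hj; simp [arrow, h1]
    · simp [arrow, Pi.single_apply, hj, hz' j hj]
  · refine ⟨(i, false), ?_⟩
    funext j
    by_cases hj : j = i
    · subst hj; simp [arrow, h1]
    · simp [arrow, Pi.single_apply, hj, hz' j hj]

theorem norm1_neg (x : Fin d → ℤ) : norm1 (-x) = norm1 x := by
  simp [norm1]

/-- the recursion over the `2 d` neighbours -/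
theorem kern_succ (ε : ℝ) (ω : Env d) (n : ℕ) (x : Fin d → ℤ) :
    kern ε ω (n + 1) x = ∑ a : Fin d × Bool, kern ε ω n (x + arrow a) * step ε ω (x + arrow a) x := by
  change (∑' z, kern ε ω n z * step ε ω z x) = _
  have hinj : Function.Injective fun a : Fin d × Bool => x + arrow a := by
    intro a b h
    exact arrow_inj (add_left_cancel h)
  have hs : ∑' z, kern ε ω n z * step ε ω z x =
      ∑ z ∈ Finset.univ.map ⟨fun a : Fin d × Bool => x + arrow a, hinj⟩,
        kern ε ω n z * step ε ω z x := by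
    apply tsum_eq_sum
    intro z hz
    have h1 : step ε ω z x = 0 := by
      unfold step
      have hne : ∀ a : Fin d × Bool, z - x ≠ arrow a := by
        intro a ha
        apply hz
        rw [Finset.mem_map]
        exact ⟨a, Finset.mem_univ _, by simp [← ha]⟩
      rw [if_neg (hne _), if_neg]
      intro h1
      obtain ⟨a, ha⟩ := exists_arrow h1
      exact hne a ha.symm
    rw [h1, mul_zero]
  rw [hs, Finset.sum_map]
  rfl

variable {ε : ℝ}

theorem step_ge (hε : 0 < ε) (hε2 : ε * (2 * d) < 1) (ω : Env d) (x : Fin d → ℤ)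
    (a : Fin d × Bool) : ε ≤ step ε ω (x + arrow a) x := by
  unfold step
  split_ifs with h1 h2
  · nlinarith
  · exact le_rfl
  · exfalso
    apply h2
    rw [add_sub_cancel_left]
    exact norm1_arrow a

theorem step_nonneg (hε : 0 < ε) (hε2 : ε * (2 * d) < 1) (ω : Env d) (x z : Fin d → ℤ) :
    0 ≤ step ε ω x z := by
  unfold step
  split_ifs
  · nlinarith
  · exact hε.le
  · exact le_rfl

theorem step_le (hd : 0 < d) (hε : 0 < ε) (hε2 : ε * (2 * d) < 1) (ω : Env d)
    (x z : Fin d → ℤ) : step ε ω x z ≤ 1 := by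
  have hd' : (1 : ℝ) ≤ d := by exact_mod_cast hd
  unfold step
  split_ifs
  · nlinarith
  · nlinarith
  · exact zero_le_one

theorem kern_nonneg (hε : 0 < ε) (hε2 : ε * (2 * d) < 1) (ω : Env d) (n : ℕ) (x : Fin d → ℤ) :
    0 ≤ kern ε ω n x := by
  induction n generalizing x with
  | zero => unfold kern; split_ifs <;> norm_num
  | succ n ih =>
    rw [kern_succ]
    exact Finset.sum_nonneg fun a _ => mul_nonneg (ih _) (step_nonneg hε hε2 _ _ _)

theorem kern_le (hd : 0 < d) (hε : 0 < ε) (hε2 : ε * (2 * d) < 1) (ω : Env d) (n : ℕ)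
    (x : Fin d → ℤ) : kern ε ω n x ≤ (2 * d : ℝ) ^ n := by
  induction n generalizing x with
  | zero => unfold kern; split_ifs <;> norm_num
  | succ n ih =>
    rw [kern_succ]
    calc ∑ a : Fin d × Bool, kern ε ω n (x + arrow a) * step ε ω (x + arrow a) x
        ≤ ∑ a : Fin d × Bool, (2 * d : ℝ) ^ n * 1 := by
          refine Finset.sum_le_sum fun a _ => ?_
          exact mul_le_mul (ih _) (step_le hd hε hε2 _ _ _) (step_nonneg hε hε2 _ _ _)
            (by positivity)
      _ = (2 * d : ℝ) ^ (n + 1) := by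
          rw [Finset.sum_const, Finset.card_univ, Fintype.card_prod, Fintype.card_fin,
            Fintype.card_bool, nsmul_eq_mul, pow_succ]
          push_cast
          ring

/-- returning to `0` at even times -/
theorem kern_even (hd : 0 < d) (hε : 0 < ε) (hε2 : ε * (2 * d) < 1) (ω : Env d) (k : ℕ) :
    ε ^ (2 * k) ≤ kern ε ω (2 * k) 0 ∧
      ∀ a : Fin d × Bool, ε ^ (2 * k + 1) ≤ kern ε ω (2 * k + 1) (arrow a) := by
  have hodd : ∀ k, ε ^ (2 * k) ≤ kern ε ω (2 * k) 0 → ∀ a : Fin d × Bool,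
      ε ^ (2 * k + 1) ≤ kern ε ω (2 * k + 1) (arrow a) := by
    intro k hk a
    have hneg : ∃ b : Fin d × Bool, arrow b = -arrow a := by
      apply exists_arrow
      rw [norm1_neg, norm1_arrow]
    obtain ⟨b, hb⟩ := hneg
    rw [kern_succ]
    refine le_trans ?_ (Finset.single_le_sum (fun c _ => mul_nonneg (kern_nonneg hε hε2 ω _ _)
      (step_nonneg hε hε2 _ _ _)) (Finset.mem_univ b))
    have h1 := step_ge hε hε2 ω (arrow a) b
    have h0 : arrow a + arrow b = (0 : Fin d → ℤ) := by rw [hb]; simp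
    rw [h0] at h1 ⊢
    rw [pow_succ]
    exact mul_le_mul hk h1 hε.le (kern_nonneg hε hε2 _ _ _)
  have heven : ε ^ (2 * k) ≤ kern ε ω (2 * k) 0 := by
    induction k with
    | zero => simp [kern]
    | succ k ih =>
      have h1 := hodd k ih (⟨0, hd⟩, true)
      rw [show 2 * (k + 1) = (2 * k + 1) + 1 by ring, kern_succ]
      refine le_trans ?_ (Finset.single_le_sum (fun c _ => mul_nonneg (kern_nonneg hε hε2 ω _ _)
        (step_nonneg hε hε2 _ _ _)) (Finset.mem_univ ((⟨0, hd⟩, true) : Fin d × Bool)))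
      have h2 := step_ge hε hε2 ω 0 (⟨0, hd⟩, true)
      rw [zero_add] at h2 ⊢
      rw [pow_succ]
      exact mul_le_mul h1 h2 hε.le (kern_nonneg hε hε2 _ _ _)
  exact ⟨heven, hodd k heven⟩

theorem kern_meas (n : ℕ) (x : Fin d → ℤ) : Measurable fun ω : Env d => kern ε ω n x := by
  induction n generalizing x with
  | zero => exact measurable_const
  | succ n ih =>
    simp only [kern_succ]
    refine Finset.measurable_fun_sum _ fun a _ => (ih _).mul ?_
    have h : (fun ω : Env d => step ε ω (x + arrow a) x) =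
        (fun b : Fin d × Bool => (if x + arrow a - x = arrow b then 1 - (2 * (d : ℝ) - 1) * ε else
          if norm1 (x + arrow a - x) = 1 then ε else 0)) ∘ fun ω => ω (x + arrow a) := by
      funext ω
      simp only [step, Function.comp]
    rw [h]
    exact (measurable_of_finite _).comp (measurable_pi_apply _)

end aux

section main

variable {d : ℕ} [NeZero d] {ε : ℝ}

instance : IsProbabilityMeasure (unif d) := by unfold unif; infer_instance

instance : IsProbabilityMeasure (envLaw d) := by unfold envLaw; infer_instance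

theorem unif_singleton (a : Fin d × Bool) : unif d {a} = ((2 * d : ℕ) : ENNReal)⁻¹ := by
  unfold unif
  rw [PMF.toMeasure_apply_singleton _ _ (measurableSet_singleton _), PMF.uniformOfFintype_apply,
    Fintype.card_prod, Fintype.card_fin, Fintype.card_bool, mul_comm]

/-- a prescribed configuration around the origin has positive probability -/
theorem cyl_pos (g : (Fin d → ℤ) → Fin d × Bool) (s : Finset (Fin d → ℤ)) :
    envLaw d {ω | ∀ z ∈ s, ω z = g z} = ((2 * d : ℕ) : ENNReal)⁻¹ ^ s.card := by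
  have h : {ω : Env d | ∀ z ∈ s, ω z = g z} = Set.pi (s : Set (Fin d → ℤ)) fun z => {g z} := by
    ext ω
    simp [Set.mem_pi]
  rw [h, envLaw, Measure.infinitePi_pi _ (fun i _ => measurableSet_singleton _)]
  simp only [unif_singleton, Finset.prod_const]

theorem kern_integrable (hε : 0 < ε) (hε2 : ε * (2 * d) < 1) (n : ℕ) (x : Fin d → ℤ) :
    Integrable (fun ω : Env d => kern ε ω n x) (envLaw d) := by
  refine Integrable.of_bound (kern_meas n x).aestronglyMeasurable ((2 * d : ℝ) ^ n)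
    (ae_of_all _ fun ω => ?_)
  rw [Real.norm_eq_abs, abs_of_nonneg (kern_nonneg hε hε2 ω n x)]
  exact kern_le (Nat.pos_of_ne_zero (NeZero.ne d)) hε hε2 ω n x

theorem mean_ge (hε : 0 < ε) (hε2 : ε * (2 * d) < 1) (n : ℕ) (x : Fin d → ℤ) (c : ℝ)
    (h : ∀ ω : Env d, c ≤ kern ε ω n x) : c ≤ mean d ε n x := by
  have := integral_mono (μ := envLaw d) (integrable_const c) (kern_integrable hε hε2 n x) h
  simpa [mean] using this

/-- (ii) fails -/
theorem not_ratio (hε : 0 < ε) (hε2 : ε * (2 * d) < 1) : ¬ RatioToOne d ε := by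
  intro hR
  have hdpos : 0 < d := Nat.pos_of_ne_zero (NeZero.ne d)
  set q : ℝ := 1 - (2 * d - 1) * ε with hq
  have hqε : ε < q := by rw [hq]; nlinarith
  have hq0 : 0 < q := hε.trans hqε
  set δ : ℝ := (q - ε) / (8 * q) with hδ
  have hδ0 : 0 < δ := div_pos (by linarith) (by linarith)
  have hδq : δ * q = (q - ε) / 8 := by rw [hδ]; field_simp
  have hδ1 : δ < 1 := by
    rw [hδ, div_lt_one (by linarith)]; linarith
  have hkey : (1 + δ) ^ 2 * ε < (1 - δ) ^ 2 * q := by
    have h1 : δ * ε ≤ δ * q := mul_le_mul_of_nonneg_left hqε.le hδ0.le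
    have h2 : (1 + δ) ^ 2 * ε ≤ ε + 3 * (δ * ε) := by nlinarith [mul_pos hδ0 hε]
    have h3 : q - 2 * (δ * q) ≤ (1 - δ) ^ 2 * q := by nlinarith [sq_nonneg δ]
    linarith
  -- the neighbourhood of the origin
  set S : Finset (Fin d → ℤ) := Finset.univ.image (arrow : Fin d × Bool → Fin d → ℤ) with hS
  have hneg : ∀ a : Fin d × Bool, ∃ b : Fin d × Bool, arrow b = -arrow a := fun a =>
    exists_arrow (by rw [norm1_neg, norm1_arrow])
  choose opp hopp using hneg
  have hopp_ne : ∀ a : Fin d × Bool, opp a ≠ a := by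
    intro a h
    have h1 := hopp a
    rw [h] at h1
    have h2 := congrFun h1 a.1
    obtain ⟨i, s⟩ := a
    cases s <;> simp [arrow] at h2
  -- configurations
  classical
  let gA : (Fin d → ℤ) → Fin d × Bool := fun z =>
    if h : ∃ a, arrow a = z then h.choose else (⟨0, hdpos⟩, true)
  have hgA : ∀ a, gA (arrow a) = a := by
    intro a
    have h : ∃ b : Fin d × Bool, arrow b = arrow a := ⟨a, rfl⟩
    simp only [gA, dif_pos h]
    exact arrow_inj h.choose_spec
  let gB : (Fin d → ℤ) → Fin d × Bool := fun z => opp (gA z)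
  set η0 : ENNReal := ((2 * d : ℕ) : ENNReal)⁻¹ ^ S.card with hη0
  have hη0pos : 0 < η0 := by
    rw [hη0]
    exact ENNReal.pow_pos (ENNReal.inv_pos.2 (ENNReal.natCast_ne_top _)) _
  have hη0top : η0 ≠ ⊤ := by
    rw [hη0]
    refine ENNReal.pow_ne_top (ENNReal.inv_ne_top.2 ?_)
    exact_mod_cast (by omega : 2 * d ≠ 0)
  set η : ENNReal := η0 / (2 * (2 * d + 1 : ℕ)) with hη
  have hηpos : 0 < η := ENNReal.div_pos hη0pos.ne' (by finiteness)
  obtain ⟨N, hN⟩ := hR 1 one_pos δ hδ0 η hηpos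
  -- choose the time
  set n : ℕ := 2 * N + 3 with hn
  have hm0 : 0 < mean d ε (n + 1) 0 := by
    refine lt_of_lt_of_le (pow_pos hε (n + 1)) (mean_ge hε hε2 _ _ _ fun ω => ?_)
    have := (kern_even hdpos hε hε2 ω (N + 2)).1
    rwa [show 2 * (N + 2) = n + 1 by omega] at this
  have hm1 : ∀ a : Fin d × Bool, 0 < mean d ε n (arrow a) := by
    intro a
    refine lt_of_lt_of_le (pow_pos hε n) (mean_ge hε hε2 _ _ _ fun ω => ?_)
    have := (kern_even hdpos hε hε2 ω (N + 1)).2 a
    rwa [show 2 * (N + 1) + 1 = n by omega] at this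
  have hnorm : ∀ a : Fin d × Bool, √(∑ i, ((arrow a i : ℤ) : ℝ) ^ 2) = 1 := by
    intro a
    rw [Finset.sum_eq_single a.1]
    · unfold arrow
      split_ifs <;> simp
    · intro b _ hb
      unfold arrow
      split_ifs <;> simp [Pi.single_apply, hb]
    · simp
  have h1n : (1 : ℝ) ≤ √(n : ℝ) := by
    rw [Real.one_le_sqrt]
    exact_mod_cast (by omega : 1 ≤ n)
  have hE0 := hN (n + 1) (by omega) 0 (by simp) hm0
  have hE1 : ∀ a : Fin d × Bool,
      envLaw d {ω | δ < |kern ε ω n (arrow a) / mean d ε n (arrow a) - 1|} ≤ η := fun a =>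
    hN n (by omega) (arrow a) (by rw [hnorm a]; simpa using h1n) (hm1 a)
  set bad : Set (Env d) := {ω | δ < |kern ε ω (n + 1) 0 / mean d ε (n + 1) 0 - 1|} ∪
    ⋃ a : Fin d × Bool, {ω | δ < |kern ε ω n (arrow a) / mean d ε n (arrow a) - 1|} with hbad
  have hbadle : envLaw d bad < η0 := by
    have h1 : envLaw d bad ≤ η + ∑ a : Fin d × Bool, η := by
      refine (measure_union_le _ _).trans (add_le_add hE0 ?_)
      refine (measure_iUnion_fintype_le _ _).trans (Finset.sum_le_sum fun a _ => hE1 a)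
    have h2 : η + ∑ a : Fin d × Bool, η = ((2 * d + 1 : ℕ) : ENNReal) * η := by
      rw [Finset.sum_const, Finset.card_univ, Fintype.card_prod, Fintype.card_fin,
        Fintype.card_bool, nsmul_eq_mul]
      push_cast
      ring
    have h3 : ((2 * d + 1 : ℕ) : ENNReal) * η = η0 / 2 := by
      rw [hη]
      have hc : ((2 * d + 1 : ℕ) : ENNReal) ≠ 0 := by exact_mod_cast (by omega : 2 * d + 1 ≠ 0)
      have hc' : ((2 * d + 1 : ℕ) : ENNReal) ≠ ⊤ := ENNReal.natCast_ne_top _
      rw [div_eq_mul_inv, div_eq_mul_inv, ENNReal.mul_inv (by simp) (by simp),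
        mul_comm (η0), ← mul_assoc, ← mul_assoc, mul_comm ((2 * d + 1 : ℕ) : ENNReal) _, mul_assoc,
        mul_assoc, ← mul_assoc (((2 * d + 1 : ℕ) : ENNReal)), mul_comm ((2 * d + 1 : ℕ) : ENNReal),
        ENNReal.inv_mul_cancel hc hc', one_mul, mul_comm]
    rw [h2, h3] at h1
    exact lt_of_le_of_lt h1 (ENNReal.half_lt_self hη0pos.ne' hη0top)
  have hex : ∀ g : (Fin d → ℤ) → Fin d × Bool, ∃ ω : Env d, (∀ z ∈ S, ω z = g z) ∧ ω ∉ bad := by
    intro g
    by_contra hc
    push Not at hc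
    have h1 : {ω : Env d | ∀ z ∈ S, ω z = g z} ⊆ bad := fun ω hω => hc ω hω
    have h2 := measure_mono (μ := envLaw d) h1
    rw [cyl_pos] at h2
    exact absurd hbadle (not_lt.2 h2)
  -- consequences of not being bad
  have hgood : ∀ ω : Env d, ω ∉ bad →
      ((1 - δ) * mean d ε (n + 1) 0 ≤ kern ε ω (n + 1) 0 ∧
        kern ε ω (n + 1) 0 ≤ (1 + δ) * mean d ε (n + 1) 0) ∧
      ∀ a : Fin d × Bool, (1 - δ) * mean d ε n (arrow a) ≤ kern ε ω n (arrow a) ∧
        kern ε ω n (arrow a) ≤ (1 + δ) * mean d ε n (arrow a) := by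
    have hgen : ∀ k m : ℝ, 0 < m → ¬ δ < |k / m - 1| → (1 - δ) * m ≤ k ∧ k ≤ (1 + δ) * m := by
      intro k m hm h
      have h1 := abs_le.1 (not_lt.1 h)
      have h2 : k / m * m = k := by field_simp
      constructor
      · have := mul_le_mul_of_nonneg_right (by linarith [h1.1] : 1 - δ ≤ k / m) hm.le
        linarith
      · have := mul_le_mul_of_nonneg_right (by linarith [h1.2] : k / m ≤ 1 + δ) hm.le
        linarith
    intro ω hω
    rw [hbad, Set.mem_union, not_or, Set.mem_iUnion, not_exists] at hω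
    exact ⟨hgen _ _ hm0 hω.1, fun a => hgen _ _ (hm1 a) (hω.2 a)⟩
  have hstepA : ∀ ω : Env d, (∀ z ∈ S, ω z = gA z) → ∀ a, step ε ω (arrow a) 0 = q := by
    intro ω hω a
    have h1 := hω (arrow a) (Finset.mem_image_of_mem _ (Finset.mem_univ _))
    rw [hgA] at h1
    unfold step
    rw [sub_zero, h1, if_pos rfl]
  have hstepB : ∀ ω : Env d, (∀ z ∈ S, ω z = gB z) → ∀ a, step ε ω (arrow a) 0 = ε := by
    intro ω hω a
    have h1 := hω (arrow a) (Finset.mem_image_of_mem _ (Finset.mem_univ _))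
    simp only [gB, hgA] at h1
    unfold step
    rw [sub_zero, h1, if_neg, if_pos (norm1_arrow a)]
    intro h
    exact hopp_ne a (arrow_inj h).symm
  have hrec : ∀ ω : Env d, kern ε ω (n + 1) 0 =
      ∑ a : Fin d × Bool, kern ε ω n (arrow a) * step ε ω (arrow a) 0 := by
    intro ω
    rw [kern_succ]
    simp only [zero_add]
  set T : ℝ := ∑ a : Fin d × Bool, mean d ε n (arrow a) with hT
  have hTpos : 0 < T := Finset.sum_pos (fun a _ => hm1 a) ⟨(⟨0, hdpos⟩, true), Finset.mem_univ _⟩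
  obtain ⟨ω, hω, hωb⟩ := hex gA
  obtain ⟨ω', hω', hωb'⟩ := hex gB
  have gA' := hgood ω hωb
  have gB' := hgood ω' hωb'
  have hA : q * ((1 - δ) * T) ≤ (1 + δ) * mean d ε (n + 1) 0 := by
    refine le_trans ?_ gA'.1.2
    rw [hrec ω, hT, Finset.mul_sum, Finset.mul_sum]
    refine Finset.sum_le_sum fun a _ => ?_
    rw [hstepA ω hω a, mul_comm]
    exact mul_le_mul_of_nonneg_right (gA'.2 a).1 hq0.le
  have hB : (1 - δ) * mean d ε (n + 1) 0 ≤ ε * ((1 + δ) * T) := by
    refine le_trans gB'.1.1 ?_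
    rw [hrec ω', hT, Finset.mul_sum, Finset.mul_sum]
    refine Finset.sum_le_sum fun a _ => ?_
    rw [hstepB ω' hω' a, mul_comm]
    exact mul_le_mul_of_nonneg_left (gB'.2 a).2 hε.le
  have h1 : (1 - δ) * (q * ((1 - δ) * T)) ≤ (1 + δ) * (ε * ((1 + δ) * T)) := by
    calc (1 - δ) * (q * ((1 - δ) * T)) ≤ (1 - δ) * ((1 + δ) * mean d ε (n + 1) 0) :=
          mul_le_mul_of_nonneg_left hA (by linarith)
      _ = (1 + δ) * ((1 - δ) * mean d ε (n + 1) 0) := by ring
      _ ≤ (1 + δ) * (ε * ((1 + δ) * T)) := mul_le_mul_of_nonneg_left hB (by linarith)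
  have h2 : ((1 + δ) ^ 2 * ε) * T < ((1 - δ) ^ 2 * q) * T := mul_lt_mul_of_pos_right hkey hTpos
  nlinarith

end main

/-- For every dimension `d ≥ 1` and every `ε ∈ (0, 1/(2d))` condition (ii) fails, so the model
does not homogenize; in particular Q1 has a negative answer. -/
theorem result (d : ℕ) [NeZero d] (ε : ℝ) (hε : 0 < ε) (hε2 : ε < 1 / (2 * d)) :
    ¬ RatioToOne d ε ∧ ¬ Homogenizes d ε := by
  have hd : (0 : ℝ) < 2 * d := by
    have : 0 < d := Nat.pos_of_ne_zero (NeZero.ne d)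
    positivity
  have h : ε * (2 * d) < 1 := by rwa [lt_div_iff₀ hd] at hε2
  exact ⟨not_ratio hε h, fun hh => not_ratio hε h hh.2⟩

end

end Pool.Agent.Results.MP_31ab2b_pr.NoPointwiseRatio
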